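import Mathlib
import Pool.Agent.Helper5.Ci.Main

set_option autoImplicit false

/-!
# Hochschild cohomology of von Neumann algebras with compact coefficients

`H^n(M, K(H)) = 0` for all `n ≥ 1` and every von Neumann algebra `M ⊆ B(H)` that has no type
`II_1` factor as a direct summand.
-/

namespace Pool.Agent.Results.MP_6abdaf_an.NoTypeIIoneFactorSummand

variable {H : Type} [NormedAddCommGroup H] [InnerProductSpace ℂ H] [CompleteSpace H]

/-- `z` is a central projection of the von Neumann algebra `M`. -/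
def IsCentralProjection (M : VonNeumannAlgebra H) (z : H →L[ℂ] H) : Prop :=
  z ∈ M ∧ star z = z ∧ z * z = z ∧ ∀ x ∈ M, z * x = x * z

/-- `z` is a minimal (non-zero) central projection of `M`, that is, `z M` is a factor. -/
def IsMinimalCentralProjection (M : VonNeumannAlgebra H) (z : H →L[ℂ] H) : Prop :=
  IsCentralProjection M z ∧ z ≠ 0 ∧
    ∀ w, IsCentralProjection M w → w * z = w → w = 0 ∨ w = z

/-- The direct summand `z M` is properly infinite: its unit `z` is the initial projection of two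
partial isometries of `M` with orthogonal ranges (two isometries of `z M` with orthogonal
ranges). -/
def SummandProperlyInfinite (M : VonNeumannAlgebra H) (z : H →L[ℂ] H) : Prop :=
  ∃ s t : H →L[ℂ] H, s ∈ M ∧ t ∈ M ∧ star s * s = z ∧ star t * t = z ∧ star s * t = 0

/-- The direct summand `z M` is a full matrix algebra `M_k(ℂ)`, `k` finite: it is spanned by a
system of matrix units. -/
def SummandIsMatrixAlgebra (M : VonNeumannAlgebra H) (z : H →L[ℂ] H) : Prop :=
  ∃ (k : ℕ) (e : Fin k → Fin k → (H →L[ℂ] H)),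
    (∀ i j, e i j ∈ M) ∧ (∀ i j, star (e i j) = e j i) ∧
    (∀ i j p q, e i j * e p q = if j = p then e i q else 0) ∧
    (∑ i, e i i = z) ∧
    ∀ x ∈ M, ∃ c : Fin k → Fin k → ℂ, z * x = ∑ i, ∑ j, c i j • e i j

/-- Every factor that is a direct summand of `M` is properly infinite or a full matrix algebra;
in other words no direct summand of `M` is a factor of type `II_1`.  (There is no condition if the
centre of `M` has no minimal projection.) -/
def NoTypeIIoneFactorSummand (M : VonNeumannAlgebra H) : Prop :=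
  ∀ z, IsMinimalCentralProjection M z →
    SummandProperlyInfinite M z ∨ SummandIsMatrixAlgebra M z

/-- For every von Neumann algebra `M` on a Hilbert space `H` without a direct summand that is a
factor of type `II_1`, and for every `n = m + 1 ≥ 1`, every bounded `n`-linear Hochschild cocycle
on `M` with values in the compact operators is the coboundary of a bounded `(n-1)`-linear cochain
with values in the compact operators: `H^n(M, K(H)) = 0`. -/
theorem result :
  ∀ (H : Type) [NormedAddCommGroup H] [InnerProductSpace ℂ H] [CompleteSpace H]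
    (M : VonNeumannAlgebra H), NoTypeIIoneFactorSummand M →
    ∀ (m : ℕ) (φ : (Fin (m+1) → (H →L[ℂ] H)) → (H →L[ℂ] H)),
      (∀ a : Fin (m+1) → (H →L[ℂ] H), (∀ j, a j ∈ M) →
        ∀ (i : Fin (m+1)) (x y : H →L[ℂ] H), x ∈ M → y ∈ M → ∀ c : ℂ,
          φ (Function.update a i (c • x + y)) = c • φ (Function.update a i x) + φ (Function.update a i y)) →
      (∃ C : ℝ, ∀ a : Fin (m+1) → (H →L[ℂ] H), (∀ j, a j ∈ M) → ‖φ a‖ ≤ C * ∏ j, ‖a j‖) →
      (∀ a : Fin (m+1) → (H →L[ℂ] H), (∀ j, a j ∈ M) → IsCompactOperator ⇑(φ a)) →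
      (∀ a : Fin (m+2) → (H →L[ℂ] H), (∀ j, a j ∈ M) →
        a 0 * φ (Fin.tail a)
          + ∑ i : Fin (m+1), ((-1 : ℂ) ^ ((i : ℕ) + 1)) •
              φ (fun j : Fin (m+1) => if (j : ℕ) < (i : ℕ) then a (Fin.castSucc j)
                else if j = i then a (Fin.castSucc j) * a (Fin.succ j) else a (Fin.succ j))
          + ((-1 : ℂ) ^ (m + 2)) • (φ (Fin.init a) * a (Fin.last (m+1))) = 0) →
      ∃ ψ : (Fin m → (H →L[ℂ] H)) → (H →L[ℂ] H),
        (∀ a : Fin m → (H →L[ℂ] H), (∀ j, a j ∈ M) →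
          ∀ (i : Fin m) (x y : H →L[ℂ] H), x ∈ M → y ∈ M → ∀ c : ℂ,
            ψ (Function.update a i (c • x + y)) = c • ψ (Function.update a i x) + ψ (Function.update a i y)) ∧
        (∃ C : ℝ, ∀ a : Fin m → (H →L[ℂ] H), (∀ j, a j ∈ M) → ‖ψ a‖ ≤ C * ∏ j, ‖a j‖) ∧
        (∀ a : Fin m → (H →L[ℂ] H), (∀ j, a j ∈ M) → IsCompactOperator ⇑(ψ a)) ∧
        (∀ a : Fin (m+1) → (H →L[ℂ] H), (∀ j, a j ∈ M) →
          a 0 * ψ (Fin.tail a)
            + ∑ i : Fin m, ((-1 : ℂ) ^ ((i : ℕ) + 1)) •
                ψ (fun j : Fin m => if (j : ℕ) < (i : ℕ) then a (Fin.castSucc j)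
                  else if j = i then a (Fin.castSucc j) * a (Fin.succ j) else a (Fin.succ j))
            + ((-1 : ℂ) ^ (m + 1)) • (ψ (Fin.init a) * a (Fin.last m)) = φ a) := by
  intro H _ _ _ M hM m
  refine Pool.Agent.Helper5.CI.main M ?_ m
  intro z hz
  have h1 : ∀ w, Pool.Agent.Helper5.CI.CP M w ↔ IsCentralProjection M w := fun w =>
    ⟨fun h => ⟨h.mem, h.sa, h.idem, h.cent⟩, fun h => ⟨h.1, h.2.1, h.2.2.1, h.2.2.2⟩⟩
  exact hM z ⟨(h1 z).1 hz.1, hz.2.1, fun w hw => hz.2.2 w ((h1 w).2 hw)⟩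

end Pool.Agent.Results.MP_6abdaf_an.NoTypeIIoneFactorSummand
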